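import Pool.Agent.W710.DP.Stm1

/-!
# Project DP, part PS: compactness
-/

set_option autoImplicit false

namespace Pool.Agent.W933.DP

open Pool.Agent.W710.DP Set

variable {b T e : ℝ}

theorem gx_per {l : Letter} (h : Good T e l) (m : ℤ) (x s : ℝ) : l.gx (x - m) s = l.gx x s := by
  have h1 : ∀ x, l.gx (x + 1) s = l.gx x s := by
    intro x
    have h2 : HasDerivAt (fun y => l.G (y + 1) s) (l.gx (x + 1) s) x :=
      HasDerivAt.comp_add_const x 1 (h.dx (x + 1) s)
    have h3 : (fun y => l.G (y + 1) s) = fun y => l.G y s := funext fun y => h.per y s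
    rw [h3] at h2
    exact h2.unique (h.dx x s)
  have h4 : Function.Periodic (fun x => l.gx x s) 1 := h1
  have := h4.sub_int_mul_eq (x := x) m
  simpa using this

theorem gs_per {l : Letter} (h : Good T e l) (m : ℤ) (x s : ℝ) : l.gs (x - m) s = l.gs x s := by
  have h1 : ∀ x, l.gs (x + 1) s = l.gs x s := by
    intro x
    have h2 := h.ds (x + 1) s
    have h3 : (fun y => l.G (x + 1) y) = fun y => l.G x y := funext fun y => h.per x y
    rw [h3] at h2
    exact h2.unique (h.ds x s)
  have h4 : Function.Periodic (fun x => l.gs x s) 1 := h1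
  have := h4.sub_int_mul_eq (x := x) m
  simpa using this

theorem G_per {l : Letter} (h : Good T e l) (m : ℤ) (x s : ℝ) : l.G (x - m) s = l.G x s := by
  have h4 : Function.Periodic (fun x => l.G x s) 1 := fun x => h.per x s
  have := h4.sub_int_mul_eq (x := x) m
  simpa using this

theorem cont_lip {f : ℝ → ℝ → ℝ} {K : ℝ}
    (h : ∀ x s x' s', |f x s - f x' s'| ≤ K * (|x - x'| + |s - s'|)) (hK : 0 ≤ K) :
    Continuous (fun p : ℝ × ℝ => f p.1 p.2) := by
  have : LipschitzWith (Real.toNNReal (2 * K)) (fun p : ℝ × ℝ => f p.1 p.2) := by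
    refine LipschitzWith.of_dist_le_mul fun p q => ?_
    rw [Real.coe_toNNReal _ (by positivity)]
    have h1 := h p.1 p.2 q.1 q.2
    have h2 : |p.1 - q.1| ≤ dist p q := by
      rw [← Real.dist_eq]; exact le_max_left _ _
    have h3 : |p.2 - q.2| ≤ dist p q := by
      rw [← Real.dist_eq]; exact le_max_right _ _
    rw [Real.dist_eq]
    nlinarith
  exact this.continuous

theorem cont_gx {l : Letter} (h : Good T e l) : Continuous (fun p : ℝ × ℝ => l.gx p.1 p.2) := by
  obtain ⟨K, hK, h1⟩ := h.lip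
  exact cont_lip (fun x s x' s' => (h1 x s x' s').1) hK

theorem cont_gs {l : Letter} (h : Good T e l) : Continuous (fun p : ℝ × ℝ => l.gs p.1 p.2) := by
  obtain ⟨K, hK, h1⟩ := h.lip
  exact cont_lip (fun x s x' s' => (h1 x s x' s').2) hK

theorem cont_G (he : 0 < e) {l : Letter} (h : Good T e l) :
    Continuous (fun p : ℝ × ℝ => l.G p.1 p.2) := by
  refine continuous_prod_of_continuous_lipschitzWith _ (Real.toNNReal (e / 4)) ?_ ?_
  · intro x
    exact continuous_iff_continuousAt.2 fun s => (h.ds x s).continuousAt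
  · intro s
    refine lipschitzWith_of_nnnorm_deriv_le (fun x => (h.dx x s).differentiableAt) fun x => ?_
    rw [← NNReal.coe_le_coe, Real.coe_toNNReal _ (by positivity), coe_nnnorm]
    change ‖deriv (fun y => l.G y s) x‖ ≤ e / 4
    rw [(h.dx x s).deriv]
    exact (h.small x s).2

theorem lt_good {w : List Letter} (hw : GoodW T e w) {i : ℕ} (hi : i < w.length) :
    Good T e (lt w i) := by
  unfold lt
  rw [List.getD_eq_getElem _ _ hi]
  exact hw _ (List.getElem_mem hi)

theorem cont_Sw (he : 0 < e) (w : List Letter) (hw : GoodW T e w) : Continuous (Sw b w) := by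
  induction w with
  | nil => exact continuous_const
  | cons l w ih =>
    have h1 := cont_G he (hw l (by simp))
    have h2 := ih (fun l' hl' => hw l' (by simp [hl']))
    have h3 : Continuous (fun ζ : Cfg => shc 1 ζ) := by
      unfold shc
      fun_prop
    have h4 : Continuous (fun ζ : Cfg => l.G (ζ.1 0) (ζ.2 0)) :=
      h1.comp (f := fun ζ : Cfg => (ζ.1 0, ζ.2 0)) (by fun_prop)
    have h5 := h2.comp h3
    change Continuous (fun ζ : Cfg => (ζ.2 0 - b) * (ζ.1 1 - ζ.1 0) - l.G (ζ.1 0) (ζ.2 0) +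
      Sw b w (shc 1 ζ))
    exact (Continuous.sub (by fun_prop) h4).add h5

theorem cont_gradX (w : List Letter) (hw : GoodW T e w) (i : ℕ) :
    Continuous (fun ζ => gradX b w ζ i) := by
  have hsm : Continuous (fun ζ : Cfg => sm b ζ i) := by
    unfold sm
    split_ifs
    · exact continuous_const
    · fun_prop
  unfold gradX
  split_ifs with hi
  · have h4 : Continuous (fun ζ : Cfg => (lt w i).gx (ζ.1 i) (ζ.2 i)) :=
      (cont_gx (lt_good hw hi)).comp (f := fun ζ : Cfg => (ζ.1 i, ζ.2 i)) (by fun_prop)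
    exact (hsm.sub (by fun_prop)).sub h4
  · exact hsm.sub continuous_const

theorem cont_gradS (w : List Letter) (hw : GoodW T e w) {i : ℕ} (hi : i < w.length) :
    Continuous (fun ζ => gradS w ζ i) := by
  unfold gradS
  have h4 : Continuous (fun ζ : Cfg => (lt w i).gs (ζ.1 i) (ζ.2 i)) :=
    (cont_gs (lt_good hw hi)).comp (f := fun ζ : Cfg => (ζ.1 i, ζ.2 i)) (by fun_prop)
  exact Continuous.sub (by fun_prop) h4

/-- `η` is the translate of `ζ` by `-m` in the relevant coordinates -/
def Tr (N : ℕ) (m : ℤ) (ζ η : Cfg) : Prop :=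
  (∀ i ≤ N, η.1 i = ζ.1 i - m) ∧ ∀ i < N, η.2 i = ζ.2 i

theorem Sw_tr (w : List Letter) (hw : GoodW T e w) (m : ℤ) :
    ∀ ζ η : Cfg, Tr w.length m ζ η → Sw b w η = Sw b w ζ := by
  induction w with
  | nil => intro ζ η _; rfl
  | cons l w ih =>
    intro ζ η h
    have h0 := h.1 0 (by simp)
    have h1 := h.1 1 (by simp)
    have h2 := h.2 0 (by simp)
    have h3 := ih (fun l' hl' => hw l' (by simp [hl'])) (shc 1 ζ) (shc 1 η)
      ⟨fun i hi => h.1 (i + 1) (by simpa using hi), fun i hi => h.2 (i + 1) (by simpa using hi)⟩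
    simp only [Sw]
    rw [h3, h0, h1, h2, G_per (hw l (by simp))]
    ring

theorem gradX_tr (w : List Letter) (hw : GoodW T e w) (m : ℤ) {ζ η : Cfg}
    (h : Tr w.length m ζ η) {i : ℕ} (hi : i ≤ w.length) : gradX b w η i = gradX b w ζ i := by
  have hsm : sm b η i = sm b ζ i := by
    unfold sm
    split_ifs with h0
    · rfl
    · exact h.2 (i - 1) (by omega)
  unfold gradX
  rw [hsm]
  split_ifs with h1
  · rw [h.2 i h1, h.1 i hi, gx_per (lt_good hw h1)]
  · rfl

theorem gradS_tr (w : List Letter) (hw : GoodW T e w) (m : ℤ) {ζ η : Cfg}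
    (h : Tr w.length m ζ η) {i : ℕ} (hi : i < w.length) : gradS w η i = gradS w ζ i := by
  unfold gradS
  rw [h.2 i hi, h.1 i hi.le, h.1 (i + 1) hi, gs_per (lt_good hw hi)]
  ring

theorem gs_bound (hp : Par b T e) {l : Letter} (h : Good T e l) :
    ∃ B : ℝ, 0 ≤ B ∧ ∀ x s, 0 ≤ s → s ≤ T → |l.gs x s| ≤ B := by
  obtain ⟨K, hK, h1⟩ := h.lip
  have hT : 0 ≤ T := by
    have := hp.1; have := hp.2.1; have := hp.2.2
    linarith
  refine ⟨K * T, by positivity, fun x s h0 h2 => ?_⟩
  have h3 := (h1 x s x 0).2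
  rw [(h.zero x 0 (Or.inl hp.1.le)).2.2, sub_zero, sub_self, abs_zero, zero_add, sub_zero,
    abs_of_nonneg h0] at h3
  exact h3.trans (mul_le_mul_of_nonneg_left h2 hK)

/-- Part PS of project DP. -/
theorem t_ps : S_ps := by
  intro b T e w hp hw a0 a1 hnc
  set N := w.length with hN
  have hT : 0 ≤ T := by
    have := hp.1; have := hp.2.1; have := hp.2.2
    linarith
  -- a common bound for `gs`
  have hB : ∃ B : ℝ, 0 ≤ B ∧ ∀ i < N, ∀ x s, 0 ≤ s → s ≤ T → |(lt w i).gs x s| ≤ B := by
    have h1 : ∀ i, ∃ B : ℝ, 0 ≤ B ∧ (i < N → ∀ x s, 0 ≤ s → s ≤ T → |(lt w i).gs x s| ≤ B) := by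
      intro i
      by_cases hi : i < N
      · obtain ⟨B, h0, h1⟩ := gs_bound hp (lt_good hw hi)
        exact ⟨B, h0, fun _ => h1⟩
      · exact ⟨0, le_rfl, fun h => absurd h hi⟩
    choose B hB0 hB using h1
    refine ⟨∑ i ∈ Finset.range N, B i, Finset.sum_nonneg fun i _ => hB0 i, fun i hi x s h0 h1 => ?_⟩
    exact (hB i hi x s h0 h1).trans (Finset.single_le_sum (f := B) (fun j _ => hB0 j)
      (Finset.mem_range.2 hi))
  obtain ⟨B, hB0, hB⟩ := hB
  set R : ℝ := 1 + N * (1 + B) with hR
  -- the compact set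
  set K : Set Cfg := (Set.pi univ (fun i : ℕ => if i ≤ N then Icc (-R) R else {0})) ×ˢ
    (Set.pi univ (fun i : ℕ => if i < N then Icc 0 T else {0})) with hK
  have hKc : IsCompact K := by
    refine IsCompact.prod (isCompact_univ_pi fun i => ?_) (isCompact_univ_pi fun i => ?_)
    · split_ifs
      · exact isCompact_Icc
      · exact isCompact_singleton
    · split_ifs
      · exact isCompact_Icc
      · exact isCompact_singleton
  set K1 : Set Cfg := K ∩ (Sw b w ⁻¹' (Icc a0 a1)) with hK1
  have hK1c : IsCompact K1 := hKc.inter_right (isClosed_Icc.preimage (cont_Sw hp.1 w hw))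
  set φ : Cfg → ℝ := fun ζ => ∑ i ∈ Finset.range (N + 1), |gradX b w ζ i| +
    ∑ i ∈ Finset.range N, |gradS w ζ i| with hφ
  have hφc : Continuous φ := by
    refine Continuous.add (continuous_finsetSum _ fun i _ => ?_)
      (continuous_finsetSum _ fun i hi => ?_)
    · exact (cont_gradX w hw i).abs
    · exact (cont_gradS w hw (Finset.mem_range.1 hi)).abs
  have hm : ∃ m0 : ℝ, 0 < m0 ∧ ∀ ζ ∈ K1, m0 ≤ φ ζ := by
    rcases K1.eq_empty_or_nonempty with h0 | h0
    · exact ⟨1, one_pos, fun ζ hζ => by rw [h0] at hζ; exact absurd hζ (Set.notMem_empty _)⟩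
    · obtain ⟨ζ0, hζ0, hmin⟩ := hK1c.exists_isMinOn h0 hφc.continuousOn
      refine ⟨φ ζ0, ?_, fun ζ hζ => hmin hζ⟩
      have hnn : 0 ≤ φ ζ0 := add_nonneg (Finset.sum_nonneg fun i _ => abs_nonneg _)
        (Finset.sum_nonneg fun i _ => abs_nonneg _)
      rcases hnn.lt_or_eq with h1 | h1
      · exact h1
      · exfalso
        have h2 : ∑ i ∈ Finset.range (N + 1), |gradX b w ζ0 i| = 0 ∧
            ∑ i ∈ Finset.range N, |gradS w ζ0 i| = 0 := by
          have ha : 0 ≤ ∑ i ∈ Finset.range (N + 1), |gradX b w ζ0 i| :=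
            Finset.sum_nonneg fun i _ => abs_nonneg _
          have hb : 0 ≤ ∑ i ∈ Finset.range N, |gradS w ζ0 i| :=
            Finset.sum_nonneg fun i _ => abs_nonneg _
          have hc : ∑ i ∈ Finset.range (N + 1), |gradX b w ζ0 i| +
            ∑ i ∈ Finset.range N, |gradS w ζ0 i| = 0 := h1.symm
          constructor <;> linarith
        have hcrit : Crit b w ζ0 := by
          constructor
          · intro i hi
            have := (Finset.sum_eq_zero_iff_of_nonneg (fun i _ => abs_nonneg _)).1 h2.1 i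
              (Finset.mem_range.2 (Nat.lt_succ_of_le hi))
            exact abs_eq_zero.1 this
          · intro i hi
            have := (Finset.sum_eq_zero_iff_of_nonneg (fun i _ => abs_nonneg _)).1 h2.2 i
              (Finset.mem_range.2 hi)
            exact abs_eq_zero.1 this
        have hom : Om T w.length ζ0 := by
          intro i hi
          have h3 := hζ0.1.2 i (mem_univ i)
          have hi' : i < N := hi
          simp only [if_pos hi'] at h3
          exact h3
        exact hnc ζ0 hom hcrit hζ0.2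
  obtain ⟨m0, hm0, hmin⟩ := hm
  have hNpos : (0 : ℝ) < 2 * N + 2 := by positivity
  refine ⟨min 1 (m0 / (2 * N + 2)), lt_min one_pos (div_pos hm0 hNpos), fun ζ hom ha0 ha1 => ?_⟩
  by_contra hcon
  push Not at hcon
  obtain ⟨hgX, hgS⟩ := hcon
  set κ := min 1 (m0 / (2 * N + 2)) with hκ
  set m : ℤ := ⌊ζ.1 0⌋ with hmz
  let η : Cfg := (fun i => if i ≤ N then ζ.1 i - m else 0, fun i => if i < N then ζ.2 i else 0)
  have hη1 : ∀ i ≤ N, η.1 i = ζ.1 i - m := fun i hi => if_pos hi
  have hη2 : ∀ i < N, η.2 i = ζ.2 i := fun i hi => if_pos hi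
  have htr : Tr w.length m ζ η := ⟨hη1, hη2⟩
  -- differences
  have hd : ∀ i < N, |ζ.1 (i + 1) - ζ.1 i| ≤ 1 + B := by
    intro i hi
    have h1 := hgS i hi
    have h2 := hB i hi (ζ.1 i) (ζ.2 i) (hom i hi).1 (hom i hi).2
    have h3 : ζ.1 (i + 1) - ζ.1 i = gradS w ζ i + (lt w i).gs (ζ.1 i) (ζ.2 i) := by
      unfold gradS; ring
    rw [h3]
    refine (abs_add_le _ _).trans (add_le_add (h1.trans (min_le_left _ _)) h2)
  have hx : ∀ i ≤ N, |ζ.1 i - m| ≤ 1 + i * (1 + B) := by
    intro i
    induction i with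
    | zero =>
      intro _
      have h1 := Int.floor_le (ζ.1 0)
      have h2 := Int.lt_floor_add_one (ζ.1 0)
      rw [abs_le]
      constructor
      · simp only [CharP.cast_eq_zero, zero_mul, add_zero]; linarith
      · simp only [CharP.cast_eq_zero, zero_mul, add_zero]; linarith
    | succ i ih =>
      intro hi
      have h1 := ih (by omega)
      have h2 := hd i (by omega)
      have h3 : ζ.1 (i + 1) - m = (ζ.1 (i + 1) - ζ.1 i) + (ζ.1 i - m) := by ring
      rw [h3]
      refine (abs_add_le _ _).trans ?_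
      push_cast
      linarith
  have hηK : η ∈ K := by
    refine ⟨fun i _ => ?_, fun i _ => ?_⟩
    · by_cases hi : i ≤ N
      · have h1 := hx i hi
        have h2 : (i : ℝ) * (1 + B) ≤ N * (1 + B) :=
          mul_le_mul_of_nonneg_right (by exact_mod_cast hi) (by linarith)
        have h3 : |ζ.1 i - m| ≤ R := by rw [hR]; linarith
        simp only [if_pos hi]
        rw [hη1 i hi]
        exact abs_le.1 h3
      · simp only [if_neg hi]
        change (if i ≤ N then ζ.1 i - m else 0) ∈ ({0} : Set ℝ)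
        rw [if_neg hi]
        exact mem_singleton _
    · by_cases hi : i < N
      · simp only [if_pos hi]
        rw [hη2 i hi]
        exact hom i hi
      · simp only [if_neg hi]
        change (if i < N then ζ.2 i else 0) ∈ ({0} : Set ℝ)
        rw [if_neg hi]
        exact mem_singleton _
  have hηK1 : η ∈ K1 := by
    refine ⟨hηK, ?_⟩
    change Sw b w η ∈ Icc a0 a1
    rw [Sw_tr w hw m ζ η htr]
    exact ⟨ha0, ha1⟩
  have h1 := hmin η hηK1
  have h2 : φ η ≤ (2 * N + 1) * κ := by
    have h3 : ∑ i ∈ Finset.range (N + 1), |gradX b w η i| ≤ ∑ i ∈ Finset.range (N + 1), κ := by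
      refine Finset.sum_le_sum fun i hi => ?_
      have hi' : i ≤ N := Nat.lt_succ_iff.1 (Finset.mem_range.1 hi)
      rw [gradX_tr w hw m htr hi']
      exact hgX i hi'
    have h4 : ∑ i ∈ Finset.range N, |gradS w η i| ≤ ∑ i ∈ Finset.range N, κ := by
      refine Finset.sum_le_sum fun i hi => ?_
      have hi' : i < N := Finset.mem_range.1 hi
      rw [gradS_tr w hw m htr hi']
      exact hgS i hi'
    rw [Finset.sum_const, Finset.card_range, nsmul_eq_mul] at h3 h4
    have h5 : φ η = ∑ i ∈ Finset.range (N + 1), |gradX b w η i| +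
      ∑ i ∈ Finset.range N, |gradS w η i| := rfl
    rw [h5]
    push_cast at h3
    linarith
  have h3 : (2 * N + 1) * κ < m0 := by
    have h4 : κ ≤ m0 / (2 * N + 2) := min_le_right _ _
    have h5 : (2 * (N : ℝ) + 1) * κ ≤ (2 * N + 1) * (m0 / (2 * N + 2)) :=
      mul_le_mul_of_nonneg_left h4 (by positivity)
    have h6 : (2 * (N : ℝ) + 1) * (m0 / (2 * N + 2)) < m0 := by
      rw [mul_div_assoc', div_lt_iff₀ hNpos]
      nlinarith
    linarith
  linarith

end Pool.Agent.W933.DP
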